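import Pool.Agent.H525.EX.Stm8

/-!
# Project EX (helper525), CLA: trace classes
-/

set_option autoImplicit false

namespace Pool.Agent.H881.EX

open Polynomial
open Pool.Agent.H525.EX
open scoped Classical

lemma psi_cases {K : Type} [Field K] (c : K) : psi c = 1 ∨ psi c = -1 := by
  unfold psi
  split_ifs
  · exact Or.inl rfl
  · exact Or.inr rfl

theorem t_cla : Pool.Agent.H525.EX.S_cla := by
  intro hpsi K _ _ _ L s hs h1 h2 b
  obtain ⟨_, h0⟩ := hpsi K
  have h0' : ∑ c : K, (psi c : ℝ) = 0 := by exact_mod_cast h0
  have key : ∀ b b' : K, psi b = psi b' → L b = L b' := by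
    intro b b' hb
    have hb' : (psi b : ℝ) = (psi b' : ℝ) := by rw [hb]
    have h := h1 (fun c => (if c = b then 1 else 0) - (if c = b' then 1 else 0)) (by simp)
      (by simp [sub_mul, hb'])
    simp only [sub_mul, ite_mul, one_mul, zero_mul, Finset.sum_sub_distrib, Finset.sum_ite_eq',
      Finset.mem_univ, if_true] at h
    linarith
  have hcase : ∀ c : K, s * (psi c : ℝ) = 1 ∨ s * (psi c : ℝ) = -1 := by
    intro c
    rcases psi_cases c with h | h <;> rcases hs with h' | h' <;> rw [h, h'] <;> norm_num
  rcases hcase b with hb | hb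
  · rw [h2 b hb, hb]
    ring
  · have hL : ∀ c : K, L c = (1 - s * (psi c : ℝ)) / 2 * L b := by
      intro c
      rcases hcase c with hc | hc
      · rw [h2 c hc, hc]
        ring
      · have h3 : psi c = psi b := by
          have h4 : s * (psi c : ℝ) = s * (psi b : ℝ) := by rw [hc, hb]
          have hs0 : s ≠ 0 := by
            rcases hs with h' | h' <;> rw [h'] <;> norm_num
          have h5 := mul_left_cancel₀ hs0 h4
          exact_mod_cast h5
        rw [key c b h3, hc]
        ring
    have hsum : ∑ c : K, L c = (Fintype.card K : ℝ) / 2 * L b := by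
      rw [Finset.sum_congr rfl fun c _ => hL c, ← Finset.sum_mul, ← Finset.sum_div,
        Finset.sum_sub_distrib, ← Finset.mul_sum, h0']
      simp
    rw [hsum, hb]
    ring

end Pool.Agent.H881.EX
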